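import Pool.Agent.Lib.MP_361a6f_ag.FL.E.J.Wds

/-!
# A place with a simple spectrum, in coordinates

If `F` has `dim V` different eigenvalues then the minimal central idempotents of the algebra of the
endomorphisms of the reduction are the projectors to the eigenlines of `F`.
-/

open Matrix

set_option autoImplicit false
set_option linter.unusedSectionVars false

namespace Pool.Agent.Lib.MP_361a6f_ag.FL.E.Inj

open Nd NdZ Rot QS
open OL (CA)
open AL1A (gT_mul gT_add gT_smul)
open AL1B (gT_one)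

variable {I Λ : Type} [Fintype I] [DecidableEq I] [DecidableEq Λ] {D : Dat I Λ}
  {At Ct : (L : ℕ) → Ten I L → Prop}

/-- the matrix `F` is an endomorphism of the reduction -/
theorem frob_mem {F : Matrix I I ℂ} (h : mten D F ∈ Submodule.span ℝ {u | Ct 2 u}) :
    F ∈ endS D Ct := by
  rw [← opM_mten (D := D) F]
  generalize mten D F = u at h
  induction h using Submodule.span_induction with
  | mem u hu => exact Submodule.subset_span ⟨u, hu, rfl⟩
  | zero =>
    have : opM D (0 : Ten I 2) = 0 := by ext i j; simp [opM]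
    rw [this]
    exact zero_mem _
  | add a b _ _ ha hb => rw [opM_add]; exact add_mem ha hb
  | smul c a _ ha =>
    rw [Qps.real_smul, opM_smul]
    exact Submodule.smul_mem _ _ ha

/-- polynomials in `F` are endomorphisms of the reduction -/
theorem adjoin_mem (S : ASys D Ct) (ho : ∀ i, D.odd (D.typ i)) (he : ∀ i j, D.typ i = D.typ j)
    {F : Matrix I I ℂ} (hF : F ∈ endS D Ct) {x : Matrix I I ℂ}
    (hx : x ∈ Algebra.adjoin ℂ {F}) : x ∈ endS D Ct := by
  induction hx using Algebra.adjoin_induction with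
  | mem x hx =>
    rw [Set.mem_singleton_iff] at hx
    rw [hx]
    exact hF
  | algebraMap r =>
    rw [Algebra.algebraMap_eq_smul_one]
    exact Submodule.smul_mem _ _ (cen_one S he).mem
  | add x y _ _ hx hy => exact add_mem hx hy
  | mul x y _ _ hx hy => exact mul_mem_endS S ho he hx hy

/-- polynomials in `F` preserve the subspaces preserved by `F` -/
theorem adjoin_stable {F : Matrix I I ℂ} {U : Submodule ℂ (I → ℂ)}
    (hU : ∀ v ∈ U, F *ᵥ v ∈ U) {x : Matrix I I ℂ} (hx : x ∈ Algebra.adjoin ℂ {F}) :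
    ∀ v ∈ U, x *ᵥ v ∈ U := by
  induction hx using Algebra.adjoin_induction with
  | mem x hx =>
    rw [Set.mem_singleton_iff] at hx
    rw [hx]
    exact hU
  | algebraMap r =>
    intro v hv
    rw [Algebra.algebraMap_eq_smul_one, Matrix.smul_mulVec, Matrix.one_mulVec]
    exact Submodule.smul_mem _ _ hv
  | add x y _ _ hx hy =>
    intro v hv
    rw [Matrix.add_mulVec]
    exact add_mem (hx v hv) (hy v hv)
  | mul x y _ _ hx hy =>
    intro v hv
    rw [← Matrix.mulVec_mulVec]
    exact hx _ (hy v hv)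

/-- a matrix that commutes with a diagonal one with different entries -/
theorem diag_of_comm {l : I → ℂ} (hl : Function.Injective l) {M : Matrix I I ℂ}
    (h : Matrix.diagonal l * M = M * Matrix.diagonal l) :
    M = Matrix.diagonal fun i => M i i := by
  ext i j
  by_cases hij : i = j
  · rw [hij, Matrix.diagonal_apply_eq]
  · rw [Matrix.diagonal_apply_ne _ hij]
    have h1 := congrFun (congrFun h i) j
    rw [Matrix.diagonal_mul, Matrix.mul_diagonal] at h1
    have h2 : (l i - l j) * M i j = 0 := by linear_combination h1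
    exact (mul_eq_zero.1 h2).resolve_left (sub_ne_zero.2 fun h => hij (hl h))

/-- as many eigenvalues as vectors in the basis -/
theorem inj_of_card {F Y : Matrix I I ℂ} {l : I → ℂ} (h1 : Y * Y⁻¹ = 1) (h2 : Y⁻¹ * Y = 1)
    (hFY : F * Y = Y * Matrix.diagonal l) {A : Finset ℂ} (hA : Fintype.card I ≤ A.card)
    (h : ∀ a ∈ A, ∃ y, y ≠ 0 ∧ F.mulVec y = a • y) : Function.Injective l := by
  classical
  have hsub : A ⊆ Finset.univ.image l := by
    intro a ha
    obtain ⟨y, hy, hFy⟩ := h a ha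
    obtain ⟨x, hx⟩ : ∃ x : I → ℂ, x = (Y⁻¹).mulVec y := ⟨_, rfl⟩
    have hYx : Y.mulVec x = y := by
      rw [hx, Matrix.mulVec_mulVec, h1, Matrix.one_mulVec]
    obtain ⟨i, hi⟩ : ∃ i, x i ≠ 0 := by
      by_contra hcon
      push Not at hcon
      apply hy
      rw [← hYx, (funext hcon : x = 0), Matrix.mulVec_zero]
    have h3 : Y⁻¹ * F * Y = Matrix.diagonal l := by
      rw [Matrix.mul_assoc, hFY, ← Matrix.mul_assoc, h2, Matrix.one_mul]
    have h4 : (Matrix.diagonal l).mulVec x = a • x := by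
      rw [← h3, ← Matrix.mulVec_mulVec, hYx, ← Matrix.mulVec_mulVec, hFy, Matrix.mulVec_smul, hx]
    have h5 := congrFun h4 i
    rw [Matrix.mulVec_diagonal, Pi.smul_apply, smul_eq_mul] at h5
    exact Finset.mem_image.2 ⟨i, Finset.mem_univ _, mul_right_cancel₀ hi h5⟩
  have h6 : (Finset.univ.image l).card = (Finset.univ : Finset I).card :=
    le_antisymm Finset.card_image_le (hA.trans (Finset.card_le_card hsub))
  have h7 := Finset.card_image_iff.1 h6
  intro i j hij
  exact h7 (Finset.mem_coe.2 (Finset.mem_univ i)) (Finset.mem_coe.2 (Finset.mem_univ j)) hij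

/-- the data of a place with a simple spectrum, in coordinates -/
structure RSys (D : Dat I Λ) (At Ct : (L : ℕ) → Ten I L → Prop) (F : Matrix I I ℂ) : Prop where
  csys : ASys D Ct
  typ_eq : ∀ i j, D.typ i = D.typ j
  odd : ∀ i, D.odd (D.typ i)
  sub : ∀ L u, At L u → Ct L u
  frob : IsG D F
  mten : mten D F ∈ Submodule.span ℝ {u | Ct 2 u}
  fix : ∀ L u, Ct L u → gT F u = u
  pos : ∀ u, Ct 2 u → u ≠ 0 → ∃ q : ℚ, 0 < q ∧ psiT D u u = (q : ℂ)
  simple : ∃ A : Finset ℂ, Fintype.card I ≤ A.card ∧ ∀ a ∈ A, ∃ y, y ≠ 0 ∧ F.mulVec y = a • y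

theorem pow_diag {F Y : Matrix I I ℂ} {l : I → ℂ} (hFY : F * Y = Y * Matrix.diagonal l) (n : ℕ) :
    F ^ n * Y = Y * Matrix.diagonal fun i => l i ^ n := by
  induction n with
  | zero =>
    rw [pow_zero, Matrix.one_mul]
    simp only [pow_zero]
    rw [Matrix.diagonal_one, Matrix.mul_one]
  | succ n ih =>
    rw [pow_succ, Matrix.mul_assoc, hFY, ← Matrix.mul_assoc, ih, Matrix.mul_assoc,
      Matrix.diagonal_mul_diagonal]
    congr 1

/-- polynomials in `F` in a basis of eigenvectors -/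
theorem aeval_diag {F Y : Matrix I I ℂ} {l : I → ℂ} (hFY : F * Y = Y * Matrix.diagonal l)
    (p : Polynomial ℂ) :
    Polynomial.aeval F p * Y = Y * Matrix.diagonal fun i => p.eval (l i) := by
  induction p using Polynomial.induction_on' with
  | add p q hp hq =>
    rw [map_add, Matrix.add_mul, hp, hq, ← Matrix.mul_add, Matrix.diagonal_add]
    congr 2
    funext i
    rw [Polynomial.eval_add]
  | monomial n a =>
    rw [Polynomial.aeval_monomial, Algebra.algebraMap_eq_smul_one, smul_mul_assoc, one_mul,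
      Matrix.smul_mul, pow_diag hFY, ← Matrix.mul_smul]
    congr 1
    ext i j
    rw [Matrix.smul_apply]
    by_cases hij : i = j
    · rw [hij, Matrix.diagonal_apply_eq, Matrix.diagonal_apply_eq, Polynomial.eval_monomial,
        smul_eq_mul]
    · rw [Matrix.diagonal_apply_ne _ hij, Matrix.diagonal_apply_ne _ hij, smul_zero]

/-- a matrix with the eigenvectors of `F` is a polynomial in `F` -/
theorem adjoin_of_diag {F Y x : Matrix I I ℂ} {l z : I → ℂ} (h1 : Y * Y⁻¹ = 1)
    (hl : Function.Injective l) (hFY : F * Y = Y * Matrix.diagonal l)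
    (hx : x * Y = Y * Matrix.diagonal z) : x ∈ Algebra.adjoin ℂ {F} := by
  have h2 : x = Polynomial.aeval F (Lagrange.interpolate Finset.univ l z) := by
    have h3 : x * Y = Polynomial.aeval F (Lagrange.interpolate Finset.univ l z) * Y := by
      rw [hx, aeval_diag hFY]
      congr 2
      funext i
      exact (Lagrange.eval_interpolate_at_node _ (fun i _ j _ h => hl h)
        (Finset.mem_univ i)).symm
    have h4 := congrArg (· * Y⁻¹) h3
    simpa only [Matrix.mul_assoc, h1, Matrix.mul_one] using h4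
  rw [h2]
  exact Polynomial.aeval_mem_adjoin_singleton ℂ F

/-- **Reducible words do not occur.** -/
theorem red_zero' (hY : YStatement) (a1 : Alg1) {F : Matrix I I ℂ} (S : RSys D At Ct F)
    {Y : Matrix I I ℂ} {l : I → ℂ} (hl : Function.Injective l) (hG : IsG D Y)
    (hFY : F * Y = Y * Matrix.diagonal l) (hlτ : ∀ i, l (D.τ i) * l i = 1) {L : ℕ}
    {v : Ten I L} (hv : ((0 : Ten I L), v) ∈ Cj Ct L) (w : Fin L → I)
    (hw : Red Ct fun k => l (w k)) : gT Y⁻¹ v w = 0 := by
  classical
  obtain ⟨hY1, hY2, hY3⟩ := a1.G_inv D Y hG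
  obtain ⟨p, c, rfl, e, hpair, hcp⟩ := hw
  -- the stabiliser of the members of length two
  have hblk : ∀ x, IsG D x → (∀ u, Ct 2 u → gT x u = u) →
      ∃ z : I → ℂ, Adm D l z ∧ Y⁻¹ * x * Y = Matrix.diagonal z := by
    intro x hx hxu
    have h7 : x * F = F * x := comm_endS (fun u hu => comm_of_two S.odd a1 hx (hxu u hu))
      (frob_mem S.mten)
    have hz' := diag_of_comm hl (conj_comm hY2 hY3 hFY h7)
    refine ⟨fun i => (Y⁻¹ * x * Y) i i, adm_of_isG (fun i j h => by rw [hl h]) ?_, hz'⟩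
    rw [← hz']
    exact a1.G_mul D _ _ (a1.G_mul D _ _ hY1 hx) hG
  obtain ⟨v', hv'⟩ : ∃ v' : Ten I (p + c), v' = permT e.symm v := ⟨_, rfl⟩
  obtain ⟨wP, hwP⟩ : ∃ wP : Fin p → I, wP = fun i => w (e (Fin.castAdd c i)) := ⟨_, rfl⟩
  obtain ⟨wR, hwR⟩ : ∃ wR : Fin c → I, wR = fun i => w (e (Fin.natAdd p i)) := ⟨_, rfl⟩
  have hw' : Fin.append wP wR = w ∘ e := by
    funext i
    refine Fin.addCases (fun i => ?_) (fun i => ?_) i
    · rw [Fin.append_left, hwP]
      rfl
    · rw [Fin.append_right, hwR]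
      rfl
  obtain ⟨u, hu⟩ : ∃ u : Ten I (p + c), u = gT Y⁻¹ v' := ⟨_, rfl⟩
  have hvu : gT Y u = v' := by
    rw [hu]
    exact psi_outer_gT a1 hG v'
  have hval : gT Y⁻¹ v w = u (Fin.append wP wR) := by
    rw [hu, hv', AL2.perm_gT, hw']
    show _ = gT Y⁻¹ v ((w ∘ e) ∘ e.symm)
    congr 1
    funext i
    simp
  rw [hval]
  have hone : ∀ z, Adm D l z → ∏ i, z ((D.τ ∘ wP) i) = 1 := by
    intro z hz
    have h1 : ∏ i, z (wP i) = 1 := by
      refine prod_one hlτ hz wP ?_
      rw [hwP]
      exact hpair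
    have h2 : (∏ i, z ((D.τ ∘ wP) i)) * ∏ i, z (wP i) = 1 := by
      rw [← Finset.prod_mul_distrib]
      exact Finset.prod_eq_one fun k _ => hz.2 (wP k)
    rwa [h1, mul_one] at h2
  have hδ : gT Y (Pi.single (D.τ ∘ wP) 1 : Ten I p) ∈ CA Ct p := by
    refine fft_two hY a1 S.csys S.odd S.pos fun x hx hxu => ?_
    obtain ⟨z, hz, hxz⟩ := hblk x hx hxu
    have h1 : x * Y = Y * Matrix.diagonal z := by
      rw [← hxz, ← Matrix.mul_assoc, ← Matrix.mul_assoc, hY2, Matrix.one_mul]
    rw [← gT_mul, h1, gT_mul]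
    congr 1
    funext w'
    rw [gT_dia]
    by_cases hw' : w' = D.τ ∘ wP
    · rw [hw', hone z hz, one_mul]
    · rw [Pi.single_eq_of_ne hw', mul_zero]
  have hcj : ((0 : Ten I (p + c)), v') ∈ Cj Ct (p + c) := by
    rw [hv']
    exact cj_perm S.csys e.symm hv
  have h1 : cont D (gT Y (Pi.single (D.τ ∘ wP) 1 : Ten I p)) v' = 0 := by
    refine cont_zero_of (fun t ht => hcp _ ?_) hδ
    have h2 := cj_cont S.csys ht hcj
    have h3 : cont D t (0 : Ten I (p + c)) = 0 := by
      funext w
      simp [cont]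
    rwa [h3] at h2
  rw [← hvu, ← AL2.cont_gT D Y _ u hG] at h1
  have h4 : cont D (Pi.single (D.τ ∘ wP) 1 : Ten I p) u = 0 := by
    apply inj a1 hG
    rw [h1]
    have h5 := gT_smul Y (0 : ℂ) (0 : Ten I c)
    rw [zero_smul, zero_smul] at h5
    exact h5.symm
  have h5 := congrFun h4 wR
  rw [cont_single] at h5
  have h6 := sg_mul_self D (D.τ ∘ wP)
  calc u (Fin.append wP wR) = (sg D (D.τ ∘ wP) * sg D (D.τ ∘ wP)) * u (Fin.append wP wR) := by
        rw [h6, one_mul]
    _ = sg D (D.τ ∘ wP) * (sg D (D.τ ∘ wP) * u (Fin.append wP wR)) := by ring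
    _ = 0 := by
        rw [h5]
        simp

/-- **A place with a simple spectrum.** -/
theorem psys_of (hY : YStatement) (a1 : Alg1) {F : Matrix I I ℂ} (S : RSys D At Ct F) (L : ℕ) :
    ∃ (T : Type) (_ : Fintype T) (f : T → Matrix I I ℂ) (bar : T → T) (lam : T → ℂ),
      PSys D At Ct F f bar lam L := by
  classical
  obtain ⟨Y, l, hG, hFY, -, hlτ, -⟩ := rea hY a1 S.odd S.typ_eq S.csys S.pos S.frob S.mten
  obtain ⟨hY1, hY2, hY3⟩ := a1.G_inv D Y hG
  obtain ⟨A, hA, hAe⟩ := S.simple
  have hl := inj_of_card hY2 hY3 hFY hA hAe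
  obtain ⟨g0, hg0, hreal⟩ := exists_real hY a1 S.csys S.odd S.pos
  obtain ⟨T, iT, iD, f, bar, Fm⟩ := exists_fam S.csys S.odd S.typ_eq
  have hFm : F ∈ endS D Ct := frob_mem S.mten
  have hFc : ∀ M ∈ endS D Ct, F * M = M * F := fun M hM =>
    comm_endS (fun z hz => comm_of_fix S.odd a1 S.frob S.fix hz) hM
  have hfixA : ∀ L u, At L u → gT F u = u := fun L u hu => S.fix L u (S.sub L u hu)
  -- endomorphisms are diagonal
  have hdg : ∀ M ∈ endS D Ct, ∃ m : I → ℂ, M * Y = Y * Matrix.diagonal m := by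
    intro M hM
    have h1 := diag_of_comm hl (conj_comm hY2 hY3 hFY (hFc M hM).symm)
    refine ⟨fun i => (Y⁻¹ * M * Y) i i, ?_⟩
    rw [← h1, ← Matrix.mul_assoc, ← Matrix.mul_assoc, hY2, Matrix.one_mul]
  obtain ⟨g, hg⟩ : ∃ g : I → Matrix I I ℂ, ∀ i, g i = Y * Matrix.diagonal (Pi.single i 1) * Y⁻¹ :=
    ⟨_, fun _ => rfl⟩
  have hgY : ∀ i, g i * Y = Y * Matrix.diagonal (Pi.single i 1) := by
    intro i
    rw [hg, Matrix.mul_assoc, hY3, Matrix.mul_one]
  have hYi : ∀ M N : Matrix I I ℂ, M * Y = N * Y → M = N := by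
    intro M N h
    have h1 := congrArg (· * Y⁻¹) h
    simpa only [Matrix.mul_assoc, hY2, Matrix.mul_one] using h1
  have hgcomm : ∀ i, ∀ M ∈ endS D Ct, g i * M = M * g i := by
    intro i M hM
    obtain ⟨m, hm⟩ := hdg M hM
    apply hYi
    rw [Matrix.mul_assoc, hm, ← Matrix.mul_assoc, hgY, Matrix.mul_assoc, Matrix.mul_assoc M, hgY,
      ← Matrix.mul_assoc M, hm, Matrix.mul_assoc, Matrix.diagonal_mul_diagonal,
      Matrix.diagonal_mul_diagonal]
    congr 2
    funext k
    rw [mul_comm]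
  have hgC : ∀ i, Cen D Ct (g i) := by
    intro i
    exact ⟨adjoin_mem S.csys S.odd S.typ_eq hFm (adjoin_of_diag hY2 hl hFY (hgY i)), hgcomm i⟩
  have hgg : ∀ i, g i * g i = g i := by
    intro i
    apply hYi
    rw [Matrix.mul_assoc, hgY, ← Matrix.mul_assoc, hgY, Matrix.mul_assoc,
      Matrix.diagonal_mul_diagonal]
    congr 2
    funext k
    by_cases hk : k = i
    · rw [hk, Pi.single_eq_same, mul_one]
    · rw [Pi.single_eq_of_ne hk, mul_zero]
  have hgsum : ∑ i, g i = 1 := by
    apply hYi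
    rw [Finset.sum_mul, Matrix.one_mul]
    simp only [hgY]
    rw [← Finset.mul_sum]
    have h1 : ∑ i, Matrix.diagonal (Pi.single i (1 : ℂ)) = (1 : Matrix I I ℂ) := by
      ext a b
      rw [Matrix.sum_apply]
      by_cases hab : a = b
      · rw [hab, Matrix.one_apply_eq, Finset.sum_eq_single b]
        · rw [Matrix.diagonal_apply_eq, Pi.single_eq_same]
        · intro c _ hc
          rw [Matrix.diagonal_apply_eq, Pi.single_eq_of_ne (Ne.symm hc)]
        · intro h
          exact absurd (Finset.mem_univ _) h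
      · rw [Matrix.one_apply_ne hab]
        exact Finset.sum_eq_zero fun c _ => Matrix.diagonal_apply_ne _ hab
    rw [h1, Matrix.mul_one]
  -- the pieces are the projectors to the eigenlines
  have hidx : ∀ s, ∃ i, f s = g i := by
    intro s
    obtain ⟨i, hi⟩ : ∃ i, g i * f s ≠ 0 := by
      by_contra hcon
      push Not at hcon
      apply Fm.ne s
      rw [← Matrix.one_mul (f s), ← hgsum, Finset.sum_mul]
      exact Finset.sum_eq_zero fun i _ => hcon i
    have h1 := (Fm.atom (g i) (hgC i) (hgg i) s).resolve_left hi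
    obtain ⟨m, hm⟩ := hdg _ (Fm.cen s).mem
    have h2 : Matrix.diagonal (fun k => (Pi.single i (1 : ℂ) : I → ℂ) k * m k) =
        Matrix.diagonal m := by
      have h3 : Y * Matrix.diagonal (fun k => (Pi.single i (1 : ℂ) : I → ℂ) k * m k) =
          Y * Matrix.diagonal m := by
        rw [← Matrix.diagonal_mul_diagonal, ← Matrix.mul_assoc, ← hgY, Matrix.mul_assoc, ← hm,
          ← Matrix.mul_assoc, h1]
      have h4 := congrArg (Y⁻¹ * ·) h3
      simpa only [← Matrix.mul_assoc, hY3, Matrix.one_mul] using h4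
    have h3 : ∀ k, k ≠ i → m k = 0 := by
      intro k hk
      have h4 := congrFun (congrFun h2 k) k
      rw [Matrix.diagonal_apply_eq, Matrix.diagonal_apply_eq, Pi.single_eq_of_ne hk,
        zero_mul] at h4
      exact h4.symm
    have h4 : m i * m i = m i := by
      have h5 : Y * Matrix.diagonal (fun k => m k * m k) = Y * Matrix.diagonal m := by
        rw [← Matrix.diagonal_mul_diagonal, ← Matrix.mul_assoc, ← hm, Matrix.mul_assoc, ← hm,
          ← Matrix.mul_assoc, Fm.idem]
      have h6 := congrArg (Y⁻¹ * ·) h5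
      simp only [← Matrix.mul_assoc, hY3, Matrix.one_mul] at h6
      have h7 := congrFun (congrFun h6 i) i
      rwa [Matrix.diagonal_apply_eq, Matrix.diagonal_apply_eq] at h7
    have h5 : m i ≠ 0 := by
      intro h0
      apply Fm.ne s
      apply hYi
      rw [hm, Matrix.zero_mul]
      have h6 : m = 0 := by
        funext k
        by_cases hk : k = i
        · rw [hk, h0]
          rfl
        · exact h3 k hk
      rw [h6]
      simp
    have h6 : m i = 1 := mul_right_cancel₀ h5 (by rw [h4, one_mul])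
    refine ⟨i, hYi _ _ ?_⟩
    rw [hm, hgY]
    congr 2
    funext k
    by_cases hk : k = i
    · rw [hk, h6, Pi.single_eq_same]
    · rw [h3 k hk, Pi.single_eq_of_ne hk]
  choose idx hidx using hidx
  -- the values of the projectors
  have hgv : ∀ i v, g i *ᵥ v = ((Y⁻¹ *ᵥ v) i) • (Y *ᵥ Pi.single i 1) := by
    intro i v
    rw [hg, ← Matrix.mulVec_mulVec, ← Matrix.mulVec_mulVec, ← Matrix.mulVec_smul]
    congr 1
    funext k
    rw [Matrix.mulVec_diagonal, Pi.smul_apply, smul_eq_mul]
    by_cases hk : k = i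
    · rw [hk, Pi.single_eq_same, one_mul, mul_one]
    · rw [Pi.single_eq_of_ne hk, zero_mul, mul_zero]
  -- one vector of the line is enough
  have hline : ∀ (U : Submodule ℂ (I → ℂ)) (i : I) (v : I → ℂ), g i *ᵥ v ∈ U → g i *ᵥ v ≠ 0 →
      ∀ w, g i *ᵥ w ∈ U := by
    intro U i v hv h0 w
    have h1 : (Y⁻¹ *ᵥ v) i ≠ 0 := by
      intro h
      apply h0
      rw [hgv, h, zero_smul]
    have h2 : g i *ᵥ w = ((Y⁻¹ *ᵥ w) i * ((Y⁻¹ *ᵥ v) i)⁻¹) • (g i *ᵥ v) := by
      rw [hgv i w, hgv i v, smul_smul, mul_assoc, inv_mul_cancel₀ h1, mul_one]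
    rw [h2]
    exact Submodule.smul_mem _ _ hv
  have heig : ∀ i, F * g i = l i • g i := by
    intro i
    apply hYi
    rw [Matrix.mul_assoc, hgY, ← Matrix.mul_assoc, hFY, Matrix.mul_assoc,
      Matrix.diagonal_mul_diagonal, Matrix.smul_mul, hgY, ← Matrix.mul_smul]
    congr 1
    ext a b
    rw [Matrix.smul_apply]
    by_cases hab : a = b
    · rw [hab, Matrix.diagonal_apply_eq, Matrix.diagonal_apply_eq, smul_eq_mul]
      by_cases hb : b = i
      · rw [hb]
      · rw [Pi.single_eq_of_ne hb, mul_zero, mul_zero]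
    · rw [Matrix.diagonal_apply_ne _ hab, Matrix.diagonal_apply_ne _ hab, smul_zero]
  have hgcF : ∀ i, g i * F = F * g i := fun i => hgcomm i F hFm
  refine ⟨T, iT, f, bar, fun s => l (idx s), ?_⟩
  refine
    { csys := S.csys
      sub := S.sub
      fix := hfixA
      fam := Fm
      cm := fun s => ?_
      dich := fun U hU s => ?_
      eig := fun s => ?_
      line := fun U s hs => ?_
      bar_lam := fun s => ?_
      red := fun κ hκ v hv hfv => ?_ }
  · obtain ⟨N, hN⟩ := cm_exists (Fm.cen s).mem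
    have h1 := cm_cen S.csys S.odd a1 hg0 hreal (Fm.cen s) (Fm.idem s) hN
    rw [Fm.dag] at h1
    rwa [h1] at hN
  · have hUF : ∀ v ∈ U, F *ᵥ v ∈ U := fun v hv => hU F (pres_of_fix S.frob hfixA) v hv
    have hfU : ∀ v ∈ U, f s *ᵥ v ∈ U := by
      rw [hidx]
      exact adjoin_stable hUF (adjoin_of_diag hY2 hl hFY (hgY _))
    by_cases h : ∀ v ∈ U, f s *ᵥ v = 0
    · exact Or.inl h
    · push Not at h
      obtain ⟨v, hv, h0⟩ := h
      right
      have h1 := hfU v hv
      rw [hidx] at h1 h0 ⊢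
      exact hline U _ v h1 h0
  · rw [hidx]
    exact heig _
  · obtain ⟨y, hyU, hy0, hFy⟩ := hs
    obtain ⟨x, hx⟩ : ∃ x : I → ℂ, x = (Y⁻¹).mulVec y := ⟨_, rfl⟩
    have hYx : Y.mulVec x = y := by
      rw [hx, Matrix.mulVec_mulVec, hY2, Matrix.one_mulVec]
    have h3 : Y⁻¹ * F * Y = Matrix.diagonal l := by
      rw [Matrix.mul_assoc, hFY, ← Matrix.mul_assoc, hY3, Matrix.one_mul]
    have h4 : (Matrix.diagonal l).mulVec x = l (idx s) • x := by
      rw [← h3, ← Matrix.mulVec_mulVec, hYx, ← Matrix.mulVec_mulVec, hFy, Matrix.mulVec_smul, hx]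
    have h5 : ∀ k, k ≠ idx s → x k = 0 := by
      intro k hk
      have h6 := congrFun h4 k
      rw [Matrix.mulVec_diagonal, Pi.smul_apply, smul_eq_mul] at h6
      have h7 : (l k - l (idx s)) * x k = 0 := by linear_combination h6
      exact (mul_eq_zero.1 h7).resolve_left (sub_ne_zero.2 fun h => hk (hl h))
    have h6 : g (idx s) *ᵥ y = y := by
      rw [hgv, ← hx, ← Matrix.mulVec_smul]
      conv_rhs => rw [← hYx]
      congr 1
      funext k
      rw [Pi.smul_apply, smul_eq_mul]
      by_cases hk : k = idx s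
      · rw [hk, Pi.single_eq_same, mul_one]
      · rw [h5 k hk, Pi.single_eq_of_ne hk, mul_zero]
    rw [hidx]
    exact hline U _ y (by rw [h6]; exact hyU) (by rw [h6]; exact hy0)
  · -- the adjoint
    have h1 : f (bar s) * dag D F = l (idx s) • f (bar s) := by
      have h2 := congrArg (dag D) (heig (idx s))
      rw [dag_mul S.odd, dag_smul, ← hidx, Fm.dag] at h2
      exact h2
    have h2 : dag D F * F = 1 := dag_mul_self S.frob
    have h3 : f (bar s) = (l (idx s) * l (idx (bar s))) • f (bar s) := by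
      have h4 := congrArg (· * F) h1
      simp only [Matrix.mul_assoc, h2, Matrix.mul_one, Matrix.smul_mul] at h4
      have h5 : f (bar s) * F = l (idx (bar s)) • f (bar s) := by
        rw [hidx (bar s), hgcF, heig]
      rw [h5, smul_smul] at h4
      exact h4
    have h4 : (1 - l (idx s) * l (idx (bar s))) • f (bar s) = 0 := by
      rw [sub_smul, one_smul, ← h3, sub_self]
    have h5 := (smul_eq_zero.1 h4).resolve_right (Fm.ne _)
    exact eq_inv_of_mul_eq_one_right (sub_eq_zero.1 h5).symm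
  · -- reducible words
    obtain ⟨w, hw⟩ : ∃ w : Fin L → I, w = fun a => idx (κ a) := ⟨_, rfl⟩
    have h1 := red_zero' hY a1 S hl hG hFY hlτ hv w (by rw [hw]; exact hκ)
    have h2 : gT Y⁻¹ v = 0 := by
      funext J
      by_cases hJ : J = w
      · rw [hJ, h1]
        rfl
      · obtain ⟨a, ha⟩ : ∃ a, J a ≠ w a := by
          by_contra hcon
          push Not at hcon
          exact hJ (funext hcon)
        have h3 : gT Y⁻¹ v = slT (fun a => Matrix.diagonal (Pi.single (w a) (1 : ℂ)))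
            (gT Y⁻¹ v) := by
          conv_lhs => rw [← hfv]
          rw [slT_gT', slT_gT]
          congr 1
          funext a
          rw [hidx, hg, ← Matrix.mul_assoc, ← Matrix.mul_assoc, hY3, Matrix.one_mul, hw]
        rw [h3]
        unfold slT
        rw [Pi.zero_apply]
        refine Finset.sum_eq_zero fun J' _ => ?_
        rw [Finset.prod_eq_zero (Finset.mem_univ a), zero_mul]
        show Matrix.diagonal (Pi.single (w a) (1 : ℂ)) (J a) (J' a) = 0
        by_cases haJ : J a = J' a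
        · rw [← haJ, Matrix.diagonal_apply_eq, Pi.single_eq_of_ne ha]
        · exact Matrix.diagonal_apply_ne _ haJ
    have h3 := psi_outer_gT a1 hG v
    rw [← h3, h2]
    have h4 := gT_smul Y (0 : ℂ) (0 : Ten I L)
    rwa [zero_smul, zero_smul] at h4

end Pool.Agent.Lib.MP_361a6f_ag.FL.E.Inj
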