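import Pool.Agent.Lib.MP_361a6f_ag.FL.E.I.Plc

/-!
# The optimal filtration and the vectors of the first slot

The kernel of the form on the tensors of length `1 + n` has an optimal filtration of the space of
vectors. Its steps of nonnegative weight are isotropic and stable, and they meet the stable subspace
of the vectors of the first slot if the kernel is not `0`.
-/

open Matrix

set_option autoImplicit false
set_option linter.unusedSectionVars false

namespace Pool.Agent.Lib.MP_361a6f_ag.FL.E.Inj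

open Pool.Agent.Lib.MP_54168f_ag (Tens ev Feas)
open Nd NdZ Rot QS
open OL (CA)
open AL1A (gT_mul gT_add gT_smul)
open AL1B (gT_one)

variable {I Λ : Type} [Fintype I] [DecidableEq I] [DecidableEq Λ] {D : Dat I Λ}
  {At Ct : (L : ℕ) → Ten I L → Prop} {p q : Matrix I I ℂ} {wt : I → ℝ}

/-- the vectors of weight greater than `c` -/
def Dn (p : Matrix I I ℂ) (wt : I → ℝ) (c : ℝ) : Submodule ℂ (I → ℂ) where
  carrier := {v | ∀ x, wt x ≤ c → (p.transpose *ᵥ v) x = 0}
  add_mem' := by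
    intro a b ha hb x hx
    rw [Matrix.mulVec_add, Pi.add_apply, ha x hx, hb x hx, add_zero]
  zero_mem' := by
    intro x _
    rw [Matrix.mulVec_zero]
    rfl
  smul_mem' := by
    intro c a ha x hx
    rw [Matrix.mulVec_smul, Pi.smul_apply, ha x hx, smul_zero]

theorem mem_Dn {c : ℝ} {v : I → ℂ} :
    v ∈ Dn p wt c ↔ ∀ x, wt x ≤ c → (p.transpose *ᵥ v) x = 0 := Iff.rfl

/-- expanding a vector -/
theorem expand_row (hpq : p * q = 1) (v : I → ℂ) :
    q.transpose *ᵥ (p.transpose *ᵥ v) = v := by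
  rw [Matrix.mulVec_mulVec, ← Matrix.transpose_mul, hpq, Matrix.transpose_one, Matrix.one_mulVec]

theorem Dn_stable (hpq : p * q = 1) {g : Matrix I I ℂ}
    (hst : ∀ x y, (q * g.transpose * p) x y ≠ 0 → wt x ≤ wt y) {c : ℝ} {v : I → ℂ}
    (hv : v ∈ Dn p wt c) : g *ᵥ v ∈ Dn p wt c := by
  intro x hx
  have h1 : p.transpose *ᵥ (g *ᵥ v) =
      (q * g.transpose * p).transpose *ᵥ (p.transpose *ᵥ v) := by
    rw [Matrix.transpose_mul, Matrix.transpose_mul, Matrix.transpose_transpose,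
      ← Matrix.mulVec_mulVec, ← Matrix.mulVec_mulVec, expand_row hpq]
  rw [h1, Matrix.mulVec, dotProduct]
  refine Finset.sum_eq_zero fun y _ => ?_
  rw [Matrix.transpose_apply]
  by_cases h0 : (q * g.transpose * p) y x = 0
  · rw [h0, zero_mul]
  · rw [hv y ((hst y x h0).trans hx), mul_zero]

theorem biv_le (S : ASys D At) (he : ∀ i j, D.typ i = D.typ j) {n : ℕ}
    (hF : Feas ((Kr D At n : Submodule ℂ (Ten I n)) : Set (Ten I n)) (CC D At) p q wt) {x y : I}
    (h : (q * Psi D * q.transpose) x y ≠ 0) : wt x + wt y ≤ -1 := by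
  have hmem : (Psi D : I → I → ℂ) ∈ CC D At := by
    refine ⟨om D (D.typ y), sub_CA (S.om _), ?_⟩
    rw [tm_om he, PsiT_mul_Psi, Matrix.one_mul]
  refine hF.biv (Psi D) hmem _ _ fun h0 => h ?_
  rw [← h0, Matrix.mul_apply, Finset.sum_comm]
  refine Finset.sum_congr rfl fun y' _ => ?_
  rw [Matrix.mul_apply, Finset.sum_mul]
  refine Finset.sum_congr rfl fun x' _ => ?_
  rw [Matrix.transpose_apply]
  change q x x' * Psi D x' y' * q y y' = q x x' * q y y' * Psi D x' y'
  ring

/-- the steps of nonnegative weight are isotropic -/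
theorem Dn_iso (S : ASys D At) (he : ∀ i j, D.typ i = D.typ j) {n : ℕ}
    (hF : Feas ((Kr D At n : Submodule ℂ (Ten I n)) : Set (Ten I n)) (CC D At) p q wt) {c : ℝ}
    (hc : 0 ≤ c) {v w : I → ℂ} (hv : v ∈ Dn p wt c) (hw : w ∈ Dn p wt c) :
    dotProduct v (Psi D *ᵥ w) = 0 := by
  have hpq := hF.pq
  have h1 : dotProduct v (Psi D *ᵥ w) =
      dotProduct (p.transpose *ᵥ v) ((q * Psi D * q.transpose) *ᵥ (p.transpose *ᵥ w)) := by
    conv_lhs => rw [← expand_row hpq v, ← expand_row hpq w]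
    rw [Matrix.mulVec_transpose q, ← Matrix.dotProduct_mulVec, Matrix.mulVec_mulVec,
      Matrix.mulVec_mulVec]
  rw [h1, dotProduct]
  refine Finset.sum_eq_zero fun x _ => ?_
  rcases le_or_gt (wt x) c with hx | hx
  · rw [hv x hx, zero_mul]
  · have h2 : ((q * Psi D * q.transpose) *ᵥ (p.transpose *ᵥ w)) x = 0 := by
      rw [Matrix.mulVec, dotProduct]
      refine Finset.sum_eq_zero fun y _ => ?_
      rcases le_or_gt (wt y) c with hy | hy
      · rw [hw y hy, mul_zero]
      · by_cases h0 : (q * Psi D * q.transpose) x y = 0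
        · rw [h0, zero_mul]
        · have := biv_le S he hF h0
          linarith
    rw [h2, mul_zero]

/-- subspaces that are mapped to themselves by everything that preserves the system -/
theorem stab_of_pres (S : ASys D At) (ho : ∀ i, D.odd (D.typ i)) (he : ∀ i j, D.typ i = D.typ j)
    {Γ : Set (Matrix I I ℂ)} (grp : ∀ x ∈ Γ, IsG D x)
    (gfix : ∀ x ∈ Γ, ∀ L u, At L u → gT x u = u) {U : Submodule ℂ (I → ℂ)}
    (h : ∀ g, Pres D At g → ∀ v ∈ U, g *ᵥ v ∈ U) : StabU D At Γ U := by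
  refine ⟨fun z hz v hv => stable_of_units S he
    (fun M hM hM' v hv => h M (pres_of_mem S ho he hM hM') v hv) _
      (by rw [op_opM]; exact sub_CA hz) v hv, ?_⟩
  refine (Set.finite_singleton U).subset ?_
  rintro _ ⟨x, hx, rfl⟩
  exact map_eq_of_stable (grp x hx) fun v hv => h x (pres_of_fix (grp x hx) (gfix x hx)) v hv

/-! ### The vectors of the first slot -/

/-- the span of the vectors of the first slot of the tensors in the kernel -/
def Sl (D : Dat I Λ) (At : (L : ℕ) → Ten I L → Prop) (n : ℕ) : Submodule ℂ (I → ℂ) :=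
  Submodule.span ℂ {v | ∃ t ∈ Kr D At (1 + n), ∃ b, v = slc t b}

/-- one matrix in the first slot -/
theorem slc_first {n : ℕ} (M : Matrix I I ℂ) (t : Ten I (1 + n)) (b : Fin n → I) :
    slc (slT (Fin.append (fun _ : Fin 1 => M) (fun _ : Fin n => 1)) t) b = M *ᵥ slc t b := by
  classical
  rw [slc_slT]
  simp only [Fin.append_left, Fin.append_right]
  rw [Finset.sum_eq_single b]
  · have h1 : ∏ x, (1 : Matrix I I ℂ) (b x) (b x) = 1 :=
      Finset.prod_eq_one fun c _ => Matrix.one_apply_eq (b c)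
    rw [h1, one_smul]
  · intro b' _ hb
    obtain ⟨c, hc⟩ : ∃ c, b c ≠ b' c := by
      by_contra hcon
      push Not at hcon
      exact hb (funext fun c => (hcon c).symm)
    have h1 : ∏ x, (1 : Matrix I I ℂ) (b x) (b' x) = 0 :=
      Finset.prod_eq_zero (Finset.mem_univ c) (Matrix.one_apply_ne hc)
    rw [h1, zero_smul]
  · intro h
    exact absurd (Finset.mem_univ _) h

theorem Sl_op (S : ASys D At) (ho : ∀ i, D.odd (D.typ i)) (he : ∀ i j, D.typ i = D.typ j)
    {n : ℕ} {M : Matrix I I ℂ} (hM : M ∈ endS D At) {v : I → ℂ} (hv : v ∈ Sl D At n) :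
    M *ᵥ v ∈ Sl D At n := by
  have h1 : Sl D At n ≤ (Sl D At n).comap (Matrix.toLin' M) := by
    refine Submodule.span_le.2 ?_
    rintro _ ⟨t, ht, b, rfl⟩
    show M *ᵥ slc t b ∈ Sl D At n
    rw [← slc_first]
    refine Submodule.subset_span ⟨_, slT_kr S ho he (fun i => ?_) ht, b, rfl⟩
    refine Fin.addCases (fun i => ?_) (fun i => ?_) i
    · rw [Fin.append_left]
      exact hM
    · rw [Fin.append_right]
      exact (cen_one S he).mem
  exact h1 hv

theorem Sl_sym (a1 : Alg1) {n : ℕ} {x : Matrix I I ℂ} (hx : IsG D x)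
    (hfix : ∀ L u, At L u → gT x u = u) {v : I → ℂ} (hv : v ∈ Sl D At n) :
    x *ᵥ v ∈ Sl D At n := by
  obtain ⟨-, h2, h3⟩ := a1.G_inv D x hx
  have h1 : Sl D At n ≤ (Sl D At n).comap (Matrix.toLin' x) := by
    refine Submodule.span_le.2 ?_
    rintro _ ⟨t, ht, b, rfl⟩
    show x *ᵥ slc t b ∈ Sl D At n
    have h4 : gT x⁻¹ t = t := by
      have h5 := gT_fix (fun L u => hfix L u) ht.1
      conv_lhs => rw [← h5]
      rw [← gT_mul, h3, gT_one]
    have h6 := slc_gT x⁻¹ t b
    rw [h4] at h6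
    rw [h6, Matrix.mulVec_sum]
    refine Submodule.sum_mem _ fun b' _ => ?_
    rw [Matrix.mulVec_smul, Matrix.mulVec_mulVec, h2, Matrix.one_mulVec]
    exact Submodule.smul_mem _ _ (Submodule.subset_span ⟨t, ht, b', rfl⟩)
  exact h1 hv

theorem Sl_stab (a1 : Alg1) (S : ASys D At) (ho : ∀ i, D.odd (D.typ i))
    (he : ∀ i j, D.typ i = D.typ j) {Γ : Set (Matrix I I ℂ)} (grp : ∀ x ∈ Γ, IsG D x)
    (gfix : ∀ x ∈ Γ, ∀ L u, At L u → gT x u = u) (hpq : p * q = 1)
    (hst : ∀ g, Pres D At g → ∀ x y, (q * g.transpose * p) x y ≠ 0 → wt x ≤ wt y) (n : ℕ)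
    (c : ℝ) : StabU D At Γ (Sl D At n ⊓ Dn p wt c) := by
  have hD := stab_of_pres S ho he grp gfix (U := Dn p wt c)
    fun g hg v hv => Dn_stable hpq (hst g hg) hv
  refine ⟨fun z hz v hv => ⟨Sl_op S ho he (Submodule.subset_span ⟨z, hz, rfl⟩) hv.1,
    hD.1 z hz v hv.2⟩, ?_⟩
  refine (Set.finite_singleton (Sl D At n ⊓ Dn p wt c)).subset ?_
  rintro _ ⟨x, hx, rfl⟩
  exact map_eq_of_stable (grp x hx) fun v hv => ⟨Sl_sym a1 (grp x hx) (gfix x hx) hv.1,
    Dn_stable hpq (hst x (pres_of_fix (grp x hx) (gfix x hx))) hv.2⟩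

/-- permutations of a tensor in the kernel -/
theorem perm_kr (S : ASys D At) {L : ℕ} (σ : Equiv.Perm (Fin L)) {u : Ten I L}
    (hu : u ∈ Kr D At L) : permT σ u ∈ Kr D At L :=
  ⟨perm_CA S σ hu.1, fun v hv => by
    rw [psiT_permT]
    exact hu.2 _ (perm_CA S _ hv)⟩

/-- **A vector of positive weight.** -/
theorem exists_low (S : ASys D At) {n : ℕ}
    (hF : Feas ((Kr D At (1 + n) : Submodule ℂ (Ten I (1 + n))) : Set (Ten I (1 + n)))
      (CC D At) p q wt) {t : Ten I (1 + n)} (ht : t ∈ Kr D At (1 + n)) (h0 : t ≠ 0) :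
    ∃ v ∈ Sl D At n ⊓ Dn p wt 0, v ≠ 0 := by
  classical
  have hpq := hF.pq
  have hτ : ∀ (t : Ten I (1 + n)), t ∈ Kr D At (1 + n) → ∀ J, gT p.transpose t J ≠ 0 →
      1 ≤ ∑ a, wt (J a) := fun t ht J hJ => hF.tens t ht J hJ
  obtain ⟨K0, hK0⟩ : ∃ K, gT p.transpose t K ≠ 0 := by
    by_contra hcon
    push Not at hcon
    apply h0
    have h1 : gT q.transpose (gT p.transpose t) = t := by
      rw [← gT_mul, ← Matrix.transpose_mul, hpq, Matrix.transpose_one, gT_one]
    have h2 : gT p.transpose t = 0 := funext hcon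
    rw [← h1, h2]
    have h3 := gT_smul q.transpose (0 : ℂ) (0 : Ten I (1 + n))
    rwa [zero_smul, zero_smul] at h3
  obtain ⟨K, hK, hmin⟩ := Finset.exists_min_image
    (Finset.univ.filter fun K => gT p.transpose t K ≠ 0) (fun K => ∑ a, wt (K a))
    ⟨K0, Finset.mem_filter.2 ⟨Finset.mem_univ _, hK0⟩⟩
  rw [Finset.mem_filter] at hK
  have hmin' : ∀ J, gT p.transpose t J ≠ 0 → ∑ a, wt (K a) ≤ ∑ a, wt (J a) := fun J hJ =>
    hmin J (Finset.mem_filter.2 ⟨Finset.mem_univ _, hJ⟩)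
  obtain ⟨a, ha⟩ : ∃ a, 0 < wt (K a) := by
    by_contra hcon
    push Not at hcon
    have h1 := hτ t ht K hK.2
    have h2 : ∑ a, wt (K a) ≤ 0 := Finset.sum_nonpos fun a _ => hcon a
    linarith
  obtain ⟨σ, hσ⟩ : ∃ σ : Equiv.Perm (Fin (1 + n)), σ.symm (Fin.castAdd n 0) = a :=
    ⟨Equiv.swap (Fin.castAdd n 0) a, by simp⟩
  obtain ⟨t', ht'⟩ : ∃ t', t' = permT σ t := ⟨_, rfl⟩
  have htk : t' ∈ Kr D At (1 + n) := by rw [ht']; exact perm_kr S σ ht
  obtain ⟨K1, hK1⟩ : ∃ K1 : Fin (1 + n) → I, K1 = K ∘ σ.symm := ⟨_, rfl⟩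
  have hval : ∀ J, gT p.transpose t' J = gT p.transpose t (J ∘ σ) := by
    intro J
    rw [ht', AL2.perm_gT]
    rfl
  have hK1σ : K1 ∘ σ = K := by
    rw [hK1]
    funext i
    simp
  have hsum : ∀ J : Fin (1 + n) → I, ∑ a, wt ((J ∘ σ) a) = ∑ a, wt (J a) := fun J =>
    Equiv.sum_comp σ fun a => wt (J a)
  have hmin1 : ∀ J, gT p.transpose t' J ≠ 0 → ∑ a, wt (K1 a) ≤ ∑ a, wt (J a) := by
    intro J hJ
    rw [hval] at hJ
    have h1 := hmin' _ hJ
    rw [hsum] at h1
    rw [← hsum K1, hK1σ]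
    exact h1
  obtain ⟨K', hK'⟩ : ∃ K' : Fin n → I, K' = fun c => K1 (Fin.natAdd 1 c) := ⟨_, rfl⟩
  have happ : ∀ x, Fin.append (fun _ : Fin 1 => x) K' =
      Function.update K1 (Fin.castAdd n 0) x := by
    intro x
    funext i
    refine Fin.addCases (fun j => ?_) (fun j => ?_) i
    · rw [Fin.append_left, Subsingleton.elim j 0, Function.update_self]
    · rw [Fin.append_right, Function.update_of_ne, hK']
      intro h
      have := congrArg Fin.val h
      simp at this
  obtain ⟨v, hv⟩ : ∃ v, v = slc (slT (Fin.append (fun _ : Fin 1 => (1 : Matrix I I ℂ))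
    (fun _ : Fin n => p.transpose)) t') K' := ⟨_, rfl⟩
  have hpv : p.transpose *ᵥ v = slc (gT p.transpose t') K' := by
    rw [hv, slc_slT, slc_gT, Matrix.mulVec_sum]
    refine Finset.sum_congr rfl fun b' _ => ?_
    simp only [Fin.append_left, Fin.append_right, Matrix.one_mulVec, Matrix.mulVec_smul]
  have hpv' : ∀ x, (p.transpose *ᵥ v) x =
      gT p.transpose t' (Function.update K1 (Fin.castAdd n 0) x) := by
    intro x
    rw [hpv, ← happ]
    rfl
  refine ⟨v, ⟨?_, fun x hx => ?_⟩, fun hv0 => ?_⟩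
  · rw [hv, slc_slT]
    refine Submodule.sum_mem _ fun b' _ => Submodule.smul_mem _ _ ?_
    rw [Fin.append_left, Matrix.one_mulVec]
    exact Submodule.subset_span ⟨t', htk, b', rfl⟩
  · by_contra hne
    rw [hpv'] at hne
    have h1 := hmin1 _ hne
    have h2 : ∑ a, wt (Function.update K1 (Fin.castAdd n 0) x a) =
        ∑ a, wt (K1 a) - wt (K1 (Fin.castAdd n 0)) + wt x := by
      have h3 : (fun a => wt (Function.update K1 (Fin.castAdd n 0) x a)) =
          Function.update (fun a => wt (K1 a)) (Fin.castAdd n 0) (wt x) := by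
        funext a
        by_cases h : a = Fin.castAdd n 0
        · rw [h, Function.update_self, Function.update_self]
        · rw [Function.update_of_ne h, Function.update_of_ne h]
      rw [h3, Finset.sum_update_of_mem (Finset.mem_univ _)]
      have h4 := Finset.sum_erase_add Finset.univ (fun a => wt (K1 a))
        (Finset.mem_univ (Fin.castAdd n (0 : Fin 1)))
      rw [← h4, Finset.sdiff_singleton_eq_erase]
      ring
    have h5 : K1 (Fin.castAdd n 0) = K a := by
      rw [hK1]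
      show K (σ.symm _) = _
      rw [hσ]
    rw [h2, h5] at h1
    linarith
  · have h1 := hpv' (K1 (Fin.castAdd n 0))
    rw [hv0, Matrix.mulVec_zero, Function.update_eq_self, hval, hK1σ] at h1
    exact hK.2 h1.symm

end Pool.Agent.Lib.MP_361a6f_ag.FL.E.Inj
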