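import Pool.Agent.Lib.MP_361a6f_ag.FL.E.J.Flt

/-!
# The weights of the pieces of a place

The pieces `f s` of a place are adapted to the optimal filtration. The tensors in the kernel have
components only in words of positive weight, and such a word is unbalanced for one of the isotropic
steps of the filtration.
-/

open Matrix

set_option autoImplicit false
set_option linter.unusedSectionVars false

namespace Pool.Agent.Lib.MP_361a6f_ag.FL.E.Inj

open Pool.Agent.Lib.MP_54168f_ag (Tens ev Feas)
open Nd NdZ Rot QS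
open OL (CA)
open AL1A (gT_mul gT_add gT_smul)
open AL1B (gT_one)

variable {I Λ : Type} [Fintype I] [DecidableEq I] [DecidableEq Λ] {D : Dat I Λ}
  {At Ct : (L : ℕ) → Ten I L → Prop} {p q : Matrix I I ℂ} {wt : I → ℝ} {T : Type} [Fintype T]
  {f : T → Matrix I I ℂ} {bar : T → T}

/-- the subspaces that are stable under everything that preserves the system are sums of pieces -/
def Dich (D : Dat I Λ) (At : (L : ℕ) → Ten I L → Prop) (f : T → Matrix I I ℂ) : Prop :=
  ∀ U : Submodule ℂ (I → ℂ), (∀ g, Pres D At g → ∀ v ∈ U, g *ᵥ v ∈ U) → ∀ s,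
    (∀ v ∈ U, f s *ᵥ v = 0) ∨ ∀ v, f s *ᵥ v ∈ U

/-- the pieces are adapted to the optimal filtration -/
theorem low' (ho : ∀ i, D.odd (D.typ i)) (F : Fam D Ct f bar) (hd : Dich D At f)
    (hpq : p * q = 1)
    (hst : ∀ g, Pres D At g → ∀ x y, (q * g.transpose * p) x y ≠ 0 → wt x ≤ wt y)
    (s : T) (x y x1 y1 : I) (h1 : (q * (f s).transpose) x1 y1 ≠ 0)
    (h2 : (p.transpose * f s) y x ≠ 0) : wt x1 ≤ wt y := by
  by_contra hlt
  rw [not_le] at hlt
  have hqp := mul_eq_one_comm.1 hpq
  have hpsi : Psi D * f (bar s) = (f s).transpose * Psi D := by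
    rw [Psi_mul_eq ho, F.dag, F.bar_bar]
  rcases hd (Up D q wt (fun r => wt y < r)) (fun g hg v hv => Up_stable ho hpq
    (hst _ (hg.dag ho)) (fun a b hab h => lt_of_lt_of_le h hab) hv) (bar s) with h0 | h0
  · apply h2
    obtain ⟨u, hu⟩ : ∃ u : I → ℂ, u = -(Psi D *ᵥ fun z => p z y) := ⟨_, rfl⟩
    have hΨu : Psi D *ᵥ u = fun z => p z y := by
      rw [hu, Matrix.mulVec_neg, Matrix.mulVec_mulVec, Psi_mul_Psi ho, Matrix.neg_mulVec,
        Matrix.one_mulVec, neg_neg]
    have huU : u ∈ Up D q wt (fun r => wt y < r) := by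
      intro z hz
      rw [hΨu]
      have h3 : (q *ᵥ fun z => p z y) z = (q * p) z y := rfl
      rw [h3, hqp, Matrix.one_apply_ne]
      rintro rfl
      exact absurd hz (lt_irrefl _)
    have h5 : f (bar s) *ᵥ u = 0 := h0 u huU
    have h6 : (f s).transpose *ᵥ (fun z => p z y) = 0 := by
      rw [← hΨu, Matrix.mulVec_mulVec, ← hpsi, ← Matrix.mulVec_mulVec, h5, Matrix.mulVec_zero]
    have h7 := congrFun h6 x
    rw [Matrix.mul_apply]
    rw [Matrix.mulVec, dotProduct, Pi.zero_apply] at h7
    rw [← h7]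
    refine Finset.sum_congr rfl fun z _ => ?_
    rw [Matrix.transpose_apply, Matrix.transpose_apply, mul_comm]
  · apply h1
    obtain ⟨v, hv⟩ : ∃ v : I → ℂ, v = -(Psi D *ᵥ Pi.single y1 1) := ⟨_, rfl⟩
    have hΨv : Psi D *ᵥ v = Pi.single y1 1 := by
      rw [hv, Matrix.mulVec_neg, Matrix.mulVec_mulVec, Psi_mul_Psi ho, Matrix.neg_mulVec,
        Matrix.one_mulVec, neg_neg]
    have h4 := h0 v x1 hlt
    have h5 : Psi D *ᵥ (f (bar s) *ᵥ v) = (f s).transpose *ᵥ Pi.single y1 1 := by
      rw [Matrix.mulVec_mulVec, hpsi, ← Matrix.mulVec_mulVec, hΨv]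
    rw [h5, Matrix.mulVec_mulVec, Matrix.mulVec_single_one] at h4
    exact h4

/-- **The weights of the pieces.** -/
theorem exists_om' (S : ASys D At) (ho : ∀ i, D.odd (D.typ i)) (he : ∀ i j, D.typ i = D.typ j)
    (F : Fam D Ct f bar) (hd : Dich D At f) {n : ℕ}
    (hF : Feas ((Kr D At n : Submodule ℂ (Ten I n)) : Set (Ten I n)) (CC D At) p q wt)
    (hst : ∀ g, Pres D At g → ∀ x y, (q * g.transpose * p) x y ≠ 0 → wt x ≤ wt y) :
    ∃ ω : T → ℝ, (∀ s, ω s + ω (bar s) ≤ -1) ∧
      (∀ (κ : Fin n → T) (t : Ten I n), t ∈ Kr D At n → slT (fun i => f (κ i)) t ≠ 0 →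
        1 ≤ ∑ a, ω (κ a)) ∧
      ∀ s c, c < ω s ↔ ∀ v, f s *ᵥ v ∈ Dn p wt c := by
  classical
  have hpq := hF.pq
  have hqp := mul_eq_one_comm.1 hpq
  have hsup : ∀ s, ∃ x1, (∃ y1, (q * (f s).transpose) x1 y1 ≠ 0) ∧
      ∀ x, (∃ y, (q * (f s).transpose) x y ≠ 0) → wt x ≤ wt x1 := by
    intro s
    obtain ⟨x1, hx1, hmax⟩ := Finset.exists_max_image
      (Finset.univ.filter fun x => ∃ y, (q * (f s).transpose) x y ≠ 0) wt (by
        by_contra h
        rw [Finset.not_nonempty_iff_eq_empty] at h
        apply F.ne s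
        have h1 : q * (f s).transpose = 0 := by
          ext x y
          by_contra hne
          have h2 : x ∈ Finset.univ.filter fun x => ∃ y, (q * (f s).transpose) x y ≠ 0 :=
            Finset.mem_filter.2 ⟨Finset.mem_univ _, y, hne⟩
          rw [h] at h2
          exact absurd h2 (Finset.notMem_empty _)
        have h2 : p * (q * (f s).transpose) = 0 := by rw [h1, Matrix.mul_zero]
        rw [← Matrix.mul_assoc, hpq, Matrix.one_mul] at h2
        rw [← Matrix.transpose_transpose (f s), h2, Matrix.transpose_zero])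
    exact ⟨x1, (Finset.mem_filter.1 hx1).2, fun x hx =>
      hmax x (Finset.mem_filter.2 ⟨Finset.mem_univ _, hx⟩)⟩
  choose x1 hx1 hmax using hsup
  refine ⟨fun s => wt (x1 s), fun s => ?_, fun κ t ht h0 => ?_, fun s c => ⟨fun hc => ?_,
    fun hB => ?_⟩⟩
  · -- the bivector
    obtain ⟨y0, hy0⟩ := hx1 (bar s)
    have hE : q * (f (bar s)).transpose = -((q * Psi D * q.transpose) *
        (p.transpose * f s * Psi D)) := by
      have h1 : Psi D * f s = (f (bar s)).transpose * Psi D := by rw [Psi_mul_eq ho, F.dag]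
      have h2 : q.transpose * p.transpose = 1 := by
        rw [← Matrix.transpose_mul, hpq, Matrix.transpose_one]
      calc q * (f (bar s)).transpose = -(q * ((f (bar s)).transpose * (Psi D * Psi D))) := by
            rw [Psi_mul_Psi ho]; noncomm_ring
        _ = -(q * (((f (bar s)).transpose * Psi D) * Psi D)) := by noncomm_ring
        _ = -(q * ((Psi D * (1 * f s)) * Psi D)) := by rw [← h1, Matrix.one_mul]
        _ = -(q * ((Psi D * ((q.transpose * p.transpose) * f s)) * Psi D)) := by rw [h2]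
        _ = _ := by noncomm_ring
    rw [hE, Matrix.neg_apply, neg_ne_zero, Matrix.mul_apply] at hy0
    obtain ⟨y, _, hy⟩ := Finset.exists_ne_zero_of_sum_ne_zero hy0
    have hy1 := left_ne_zero_of_mul hy
    have hy2 := right_ne_zero_of_mul hy
    rw [Matrix.mul_apply] at hy2
    obtain ⟨z, _, hz⟩ := Finset.exists_ne_zero_of_sum_ne_zero hy2
    have hz1 := left_ne_zero_of_mul hz
    obtain ⟨y1, hy1'⟩ := hx1 s
    have hle := low' ho F hd hpq hst s z y (x1 s) y1 hy1' hz1
    have hxy : wt (x1 (bar s)) + wt y ≤ -1 := biv_le S he hF hy1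
    change wt (x1 s) + wt (x1 (bar s)) ≤ -1
    linarith
  · -- the tensor
    obtain ⟨J, hJ⟩ : ∃ J, slT (fun i => f (κ i)) t J ≠ 0 := by
      by_contra h
      push Not at h
      exact h0 (funext h)
    have hev : slT (fun i => f (κ i)) t J =
        ev (Ω := ℂ) (t : Tens I ℂ n) (fun a z => f (κ a) (J a) z) := rfl
    rw [hev, ev_expand t hpq] at hJ
    obtain ⟨K, _, hK⟩ := Finset.exists_ne_zero_of_sum_ne_zero hJ
    refine (hF.tens t ht K (right_ne_zero_of_mul hK)).trans ?_
    refine Finset.sum_le_sum fun a _ => ?_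
    refine hmax (κ a) (K a) ⟨J a, ?_⟩
    exact Finset.prod_ne_zero_iff.1 (left_ne_zero_of_mul hK) a (Finset.mem_univ a)
  · -- a step of the filtration that contains the piece
    change c < wt (x1 s) at hc
    obtain ⟨y1, hy1⟩ := hx1 s
    rcases hd (Dn p wt c) (fun g hg v hv => Dn_stable hpq (hst g hg) hv) s with h0 | h0
    · exfalso
      apply hy1
      have h1 : (fun z => q (x1 s) z) ∈ Dn p wt c := by
        intro x hx
        have h2 : (p.transpose *ᵥ fun z => q (x1 s) z) x = (q * p) (x1 s) x := by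
          rw [Matrix.mul_apply, Matrix.mulVec, dotProduct]
          exact Finset.sum_congr rfl fun z _ => by rw [Matrix.transpose_apply, mul_comm]
        rw [h2, hqp, Matrix.one_apply_ne]
        intro h
        rw [h] at hc
        exact absurd hx (not_le.2 hc)
      have h2 := congrFun (h0 _ h1) y1
      rw [Pi.zero_apply] at h2
      rw [← h2, Matrix.mul_apply, Matrix.mulVec, dotProduct]
      exact Finset.sum_congr rfl fun z _ => by rw [Matrix.transpose_apply, mul_comm]
    · exact h0
  · show c < wt (x1 s)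
    by_contra hle
    rw [not_lt] at hle
    apply F.ne s
    refine Matrix.mulVec_injective (funext fun w => ?_)
    obtain ⟨v, hv⟩ : ∃ v, v = f s *ᵥ w := ⟨_, rfl⟩
    have hvD : v ∈ Dn p wt c := by rw [hv]; exact hB w
    have hfv : f s *ᵥ v = v := by rw [hv, Matrix.mulVec_mulVec, F.idem]
    have h1 : v = (f s * q.transpose) *ᵥ (p.transpose *ᵥ v) := by
      conv_lhs => rw [← hfv]
      conv_lhs => rw [← expand_row hpq v]
      rw [Matrix.mulVec_mulVec]
    have h2 : v = 0 := by
      funext y
      rw [h1, Matrix.mulVec, dotProduct, Pi.zero_apply]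
      refine Finset.sum_eq_zero fun x _ => ?_
      rcases le_or_gt (wt x) c with hx | hx
      · rw [hvD x hx, mul_zero]
      · have h3 : (f s * q.transpose) y x = (q * (f s).transpose) x y := by
          have h4 : (f s * q.transpose).transpose = q * (f s).transpose := by
            rw [Matrix.transpose_mul, Matrix.transpose_transpose]
          rw [← h4]
          rfl
        by_cases h5 : (q * (f s).transpose) x y = 0
        · rw [h3, h5, zero_mul]
        · exact absurd ((hmax s x ⟨y, h5⟩).trans hle) (not_le.2 hx)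
    rw [← hv, h2, Matrix.zero_mulVec]

/-! ### Unbalanced words -/

/-- positive parts and the numbers of large entries -/
theorem maj {A B : Type*} [DecidableEq A] [DecidableEq B] (x : A → ℝ) (y : B → ℝ) :
    ∀ (m : ℕ) (s : Finset A) (t : Finset B), s.card = m →
      (∀ c : ℝ, 0 ≤ c → (s.filter fun i => c < x i).card ≤ (t.filter fun i => c < y i).card) →
      ∑ i ∈ s, max (x i) 0 ≤ ∑ i ∈ t, max (y i) 0 := by
  intro m
  induction m with
  | zero =>
    intro s t hs _
    rw [Finset.card_eq_zero] at hs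
    rw [hs, Finset.sum_empty]
    exact Finset.sum_nonneg fun i _ => le_max_right _ _
  | succ m ih =>
    intro s t hs h
    obtain ⟨i0, hi0, hmax⟩ := Finset.exists_max_image s x
      (Finset.card_pos.1 (by rw [hs]; exact Nat.succ_pos m))
    rcases le_or_gt (x i0) 0 with hx | hx
    · rw [Finset.sum_eq_zero fun i hi => max_eq_right ((hmax i hi).trans hx)]
      exact Finset.sum_nonneg fun i _ => le_max_right _ _
    · have hle : ∀ c : ℝ, 0 ≤ c → c < x i0 → ∃ i ∈ t, c < y i := by
        intro c hc hcx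
        have h1 : 0 < (s.filter fun i => c < x i).card :=
          Finset.card_pos.2 ⟨i0, Finset.mem_filter.2 ⟨hi0, hcx⟩⟩
        obtain ⟨i, hi⟩ := Finset.card_pos.1 (h1.trans_le (h c hc))
        exact ⟨i, (Finset.mem_filter.1 hi).1, (Finset.mem_filter.1 hi).2⟩
      obtain ⟨i1, hi1, hmax1⟩ := Finset.exists_max_image t y (by
        obtain ⟨i, hi, -⟩ := hle 0 le_rfl hx
        exact ⟨i, hi⟩)
      have hxy : x i0 ≤ y i1 := by
        by_contra hlt
        rw [not_le] at hlt
        obtain ⟨i, hi, hci⟩ := hle (max (y i1) 0) (le_max_right _ _) (max_lt hlt hx)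
        exact absurd ((hmax1 i hi).trans (le_max_left _ _)) (not_le.2 hci)
      have h2 := ih (s.erase i0) (t.erase i1) (by
        rw [Finset.card_erase_of_mem hi0, hs]
        rfl) (fun c hc => by
        rcases lt_or_ge c (x i0) with hcx | hcx
        · rw [Finset.filter_erase, Finset.filter_erase, Finset.card_erase_of_mem
            (Finset.mem_filter.2 ⟨hi0, hcx⟩), Finset.card_erase_of_mem
            (Finset.mem_filter.2 ⟨hi1, hcx.trans_le hxy⟩)]
          exact Nat.sub_le_sub_right (h c hc) 1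
        · rw [Finset.filter_eq_empty_iff.2 fun i hi =>
            not_lt.2 ((hmax i (Finset.mem_of_mem_erase hi)).trans hcx), Finset.card_empty]
          exact Nat.zero_le _)
      rw [← Finset.add_sum_erase s _ hi0, ← Finset.add_sum_erase t _ hi1]
      exact add_le_add (max_le_max hxy le_rfl) h2

/-- a word of positive weight is unbalanced for a step of the filtration -/
theorem exists_cut {ω : T → ℝ} (hω : ∀ s, ω s + ω (bar s) ≤ -1) {L : ℕ} {κ : Fin L → T}
    (hκ : 1 ≤ ∑ a, ω (κ a)) :
    ∃ c : ℝ, 0 ≤ c ∧ (Finset.univ.filter fun a => c < ω (bar (κ a))).card <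
      (Finset.univ.filter fun a => c < ω (κ a)).card := by
  classical
  by_contra hcon
  push Not at hcon
  have h1 := maj (fun a => ω (κ a)) (fun a => ω (bar (κ a))) _ Finset.univ Finset.univ rfl
    hcon
  have h2 : ∀ a, ω (κ a) ≤ max (ω (κ a)) 0 - max (ω (bar (κ a))) 0 := by
    intro a
    have h3 := hω (κ a)
    rcases le_or_gt 0 (ω (κ a)) with h4 | h4
    · rw [max_eq_left h4, max_eq_right (by linarith)]
      linarith
    · rw [max_eq_right h4.le]
      rcases le_or_gt 0 (ω (bar (κ a))) with h5 | h5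
      · rw [max_eq_left h5]
        linarith
      · rw [max_eq_right h5.le]
        linarith
  have h3 := Finset.sum_le_sum fun a (_ : a ∈ Finset.univ) => h2 a
  rw [Finset.sum_sub_distrib] at h3
  linarith

end Pool.Agent.Lib.MP_361a6f_ag.FL.E.Inj
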