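import Pool.Agent.Lib.MP_361a6f_ag.FL.E.J.Om
import Pool.Agent.Lib.MP_361a6f_ag.FL.E.I.Sup
import Pool.Agent.Lib.MP_361a6f_ag.FL.BAL.NdG

/-!
# Nondegeneracy in one length from places with a simple spectrum

A place is given by the matrix `F` of Frobenius, the system `Ct` of the algebraic tensors of the
reduction and the projectors `f s` to the eigenlines of `F`. If every isotropic stable subspace has
a place with an eigenvalue of `F` that occurs only in reducible unbalanced relations then there are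
no tensors in the kernel.
-/

open Matrix

set_option autoImplicit false
set_option linter.unusedSectionVars false

namespace Pool.Agent.Lib.MP_361a6f_ag.FL.E.Inj

open Pool.Agent.Lib.MP_54168f_ag (Tens ev Feas)
open Nd NdZ Rot QS
open OL (CA)
open AL1A (gT_mul gT_add gT_smul)
open AL1B (gT_one)

variable {I Λ : Type} [Fintype I] [DecidableEq I] [DecidableEq Λ] {D : Dat I Λ}
  {At Ct : (L : ℕ) → Ten I L → Prop}

/-- the eigenvalues of `F` on `U` -/
def Eig (F : Matrix I I ℂ) (U : Submodule ℂ (I → ℂ)) (b : ℂ) : Prop :=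
  ∃ y ∈ U, y ≠ 0 ∧ F.mulVec y = b • y

/-- the data of a place with a simple spectrum -/
structure PSys (D : Dat I Λ) (At Ct : (L : ℕ) → Ten I L → Prop) (F : Matrix I I ℂ) {T : Type}
    [Fintype T] (f : T → Matrix I I ℂ) (bar : T → T) (lam : T → ℂ) (L : ℕ) : Prop where
  csys : ASys D Ct
  sub : ∀ L u, At L u → Ct L u
  fix : ∀ L u, At L u → gT F u = u
  fam : Fam D Ct f bar
  cm : ∀ s, (f s, f (bar s)) ∈ Cm D Ct
  dich : Dich D At f
  eig : ∀ s, F * f s = lam s • f s
  line : ∀ (U : Submodule ℂ (I → ℂ)) (s : T), Eig F U (lam s) → ∀ v, f s *ᵥ v ∈ U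
  bar_lam : ∀ s, lam (bar s) = (lam s)⁻¹
  red : ∀ κ : Fin L → T, Red Ct (fun a => lam (κ a)) → ∀ v : Ten I L,
    ((0 : Ten I L), v) ∈ Cj Ct L → slT (fun a => f (κ a)) v = v → v = 0

/-- the relation is unbalanced for a stable isotropic subspace -/
def Unb (D : Dat I Λ) (At : (L : ℕ) → Ten I L → Prop) (Γ : Set (Matrix I I ℂ))
    (F : Matrix I I ℂ) {L : ℕ} (b : Fin L → ℂ) : Prop :=
  ∃ U : Submodule ℂ (I → ℂ), StabG D At Γ U ∧
    (∀ v ∈ U, ∀ w ∈ U, dotProduct v ((Psi D).mulVec w) = 0) ∧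
    Nat.card {a // Eig F U (b a)⁻¹} < Nat.card {a // Eig F U (b a)}

section place

variable {F : Matrix I I ℂ} {T : Type} [Fintype T] {f : T → Matrix I I ℂ} {bar : T → T}
  {lam : T → ℂ} {L : ℕ}

theorem PSys.eig_iff (P : PSys D At Ct F f bar lam L) (U : Submodule ℂ (I → ℂ)) (s : T) :
    Eig F U (lam s) ↔ ∀ v, f s *ᵥ v ∈ U := by
  refine ⟨P.line U s, fun h => ?_⟩
  obtain ⟨v, hv⟩ : ∃ v, f s *ᵥ v ≠ 0 := by
    by_contra hcon
    push Not at hcon
    refine P.fam.ne s (Matrix.mulVec_injective (funext fun v => ?_))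
    rw [hcon, Matrix.zero_mulVec]
  refine ⟨_, h v, hv, ?_⟩
  rw [Matrix.mulVec_mulVec, P.eig, Matrix.smul_mulVec]

theorem PSys.comm (P : PSys D At Ct F f bar lam L) (s : T) : f s * F = F * f s := by
  classical
  have h1 : F = ∑ t, lam t • f t := by
    conv_lhs => rw [← Matrix.mul_one F, ← P.fam.sum, Finset.mul_sum]
    exact Finset.sum_congr rfl fun t _ => P.eig t
  have h2 : f s * F = lam s • f s := by
    rw [h1, Finset.mul_sum, Finset.sum_eq_single s]
    · rw [Matrix.mul_smul, P.fam.idem]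
    · intro t _ ht
      rw [Matrix.mul_smul, P.fam.orth s t (Ne.symm ht), smul_zero]
    · intro h
      exact absurd (Finset.mem_univ _) h
  rw [h2, P.eig]

/-- the product of the scalars of a symmetry is `1` -/
theorem PSys.prod_sym (P : PSys D At Ct F f bar lam L) {M : Matrix I I ℂ} {e : T → ℂ}
    (hM : ∀ u, At L u → gT M u = u) (he : ∀ s, M * f s = e s • f s) {κ : Fin L → T}
    {t : Ten I L} (ht : t ∈ CA At L) (h0 : slT (fun a => f (κ a)) t ≠ 0) :
    ∏ a, e (κ a) = 1 := by
  classical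
  have hM' : M = ∑ t, e t • f t := by
    conv_lhs => rw [← Matrix.mul_one M, ← P.fam.sum, Finset.mul_sum]
    exact Finset.sum_congr rfl fun t _ => he t
  have hcomm : ∀ s, f s * M = M * f s := by
    intro s
    have h2 : f s * M = e s • f s := by
      rw [hM', Finset.mul_sum, Finset.sum_eq_single s]
      · rw [Matrix.mul_smul, P.fam.idem]
      · intro t _ ht
        rw [Matrix.mul_smul, P.fam.orth s t (Ne.symm ht), smul_zero]
      · intro h
        exact absurd (Finset.mem_univ _) h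
    rw [h2, he]
  have h1 : gT M (slT (fun a => f (κ a)) t) =
      (∏ a, e (κ a)) • slT (fun a => f (κ a)) t := by
    rw [slT_gT']
    simp only [he]
    exact slT_scal _ _ _
  have h2 : gT M (slT (fun a => f (κ a)) t) = slT (fun a => f (κ a)) t := by
    rw [slT_gT']
    simp only [← hcomm]
    rw [← slT_gT, NdG.fix_ca hM ht]
  rw [h2] at h1
  have h3 : (1 - ∏ a, e (κ a)) • slT (fun a => f (κ a)) t = 0 := by
    rw [sub_smul, one_smul, ← h1, sub_self]
  rcases smul_eq_zero.1 h3 with h | h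
  · exact (sub_eq_zero.1 h).symm
  · exact absurd h h0

/-- the product of the letters is `1` -/
theorem PSys.prod (P : PSys D At Ct F f bar lam L) {κ : Fin L → T} {t : Ten I L}
    (ht : t ∈ CA At L) (h0 : slT (fun a => f (κ a)) t ≠ 0) : ∏ a, lam (κ a) = 1 := by
  have h1 : gT F (slT (fun a => f (κ a)) t) =
      (∏ a, lam (κ a)) • slT (fun a => f (κ a)) t := by
    rw [slT_gT']
    simp only [P.eig]
    exact slT_scal _ _ _
  have h2 : gT F (slT (fun a => f (κ a)) t) = slT (fun a => f (κ a)) t := by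
    rw [slT_gT']
    simp only [← P.comm]
    rw [← slT_gT, gT_fix (fun L u => P.fix L u) ht]
  rw [h2] at h1
  have h3 : (1 - ∏ a, lam (κ a)) • slT (fun a => f (κ a)) t = 0 := by
    rw [sub_smul, one_smul, ← h1, sub_self]
  rcases smul_eq_zero.1 h3 with h | h
  · exact (sub_eq_zero.1 h).symm
  · exact absurd h h0

/-- a letter of the vectors of the first slot occurs in a word -/
theorem exists_word (F' : Fam D Ct f bar) {n : ℕ} {s : T} {y : I → ℂ} (hy : y ∈ Sl D At n)
    (hfy : f s *ᵥ y ≠ 0) : ∃ t ∈ Kr D At (1 + n), ∃ κ : Fin (1 + n) → T,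
      κ (Fin.castAdd n 0) = s ∧ slT (fun a => f (κ a)) t ≠ 0 := by
  classical
  by_contra hcon
  push Not at hcon
  apply hfy
  have h1 : Sl D At n ≤ LinearMap.ker (Matrix.toLin' (f s)) := by
    refine Submodule.span_le.2 ?_
    rintro _ ⟨t, ht, b, rfl⟩
    show f s *ᵥ slc t b = 0
    rw [← slc_first]
    have h2 : slT (Fin.append (fun _ : Fin 1 => f s) (fun _ : Fin n => 1)) t = 0 := by
      rw [← sum_wd F' (slT (Fin.append (fun _ : Fin 1 => f s) (fun _ : Fin n => 1)) t)]
      refine Finset.sum_eq_zero fun κ _ => ?_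
      unfold wd
      rw [slT_slT]
      by_cases hκ : κ (Fin.castAdd n 0) = s
      · rw [← hcon t ht κ hκ]
        congr 1
        funext i
        refine Fin.addCases (fun i => ?_) (fun i => ?_) i
        · rw [Fin.append_left, Subsingleton.elim i 0, hκ, F'.idem]
        · rw [Fin.append_right, Matrix.mul_one]
      · funext w
        unfold slT
        refine Finset.sum_eq_zero fun w' _ => ?_
        rw [Finset.prod_eq_zero (Finset.mem_univ (Fin.castAdd n 0)), zero_mul]
        have h3 : f (κ (Fin.castAdd n 0)) * Fin.append (fun _ : Fin 1 => f s)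
            (fun _ : Fin n => 1) (Fin.castAdd n 0) = 0 := by
          rw [Fin.append_left, F'.orth _ _ hκ]
        exact congrFun (congrFun h3 _) _
    rw [h2]
    rfl
  exact h1 hy

end place

/-- the condition on a subspace: a place with an eigenvalue that occurs in no unbalanced relation
that is not reducible -/
def PlU (D : Dat I Λ) (At : (L : ℕ) → Ten I L → Prop) (Γ : Set (Matrix I I ℂ)) (L : ℕ)
    (U : Submodule ℂ (I → ℂ)) : Prop :=
  ∃ (Ct : (L : ℕ) → Ten I L → Prop) (F : Matrix I I ℂ) (T : Type) (_ : Fintype T)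
    (f : T → Matrix I I ℂ) (bar : T → T) (lam : T → ℂ),
    PSys D At Ct F f bar lam L ∧ ∃ c, Eig F U c ∧
      ∀ κ : Fin L → T, (∃ a, lam (κ a) = c) → ∏ a, lam (κ a) = 1 →
        (∀ M ∈ Γ, ∀ e : T → ℂ, (∀ s, M * f s = e s • f s) → ∏ a, e (κ a) = 1) →
        Unb D At Γ F (fun a => lam (κ a)) → Red Ct fun a => lam (κ a)

/-- a subspace of the vectors of the first slot has no place -/
theorem pl_false (S : ASys D At) (ho : ∀ i, D.odd (D.typ i)) (he : ∀ i j, D.typ i = D.typ j)
    {Γ : Set (Matrix I I ℂ)} (grp : ∀ x ∈ Γ, IsG D x) {n : ℕ}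
    (fix2 : ∀ x ∈ Γ, ∀ u, At 2 u → gT x u = u) (fixn : ∀ x ∈ Γ, ∀ u, At (1 + n) u → gT x u = u)
    {p q : Matrix I I ℂ} {wt : I → ℝ}
    (hF : Feas ((Kr D At (1 + n) : Submodule ℂ (Ten I (1 + n))) : Set (Ten I (1 + n)))
      (CC D At) p q wt)
    (hstN : ∀ g, NdG.PresN D At (1 + n) g → ∀ x y, (q * g.transpose * p) x y ≠ 0 → wt x ≤ wt y)
    {U : Submodule ℂ (I → ℂ)} (hU : U ≤ Sl D At n) (hP : PlU D At Γ (1 + n) U) : False := by
  classical
  have hpq := hF.pq
  have hst : ∀ g, Pres D At g → ∀ x y, (q * g.transpose * p) x y ≠ 0 → wt x ≤ wt y :=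
    fun g hg => hstN g hg.toN
  obtain ⟨Ct, F, T, _, f, bar, lam, P, c, ⟨y, hyU, hy0, hFy⟩, hred⟩ := hP
  -- the piece of the letter
  obtain ⟨s, hs⟩ : ∃ s, f s *ᵥ y ≠ 0 := by
    by_contra h
    push Not at h
    apply hy0
    rw [← Matrix.one_mulVec y, ← P.fam.sum, Matrix.sum_mulVec]
    exact Finset.sum_eq_zero fun s _ => h s
  have hcs : lam s = c := by
    have h1 : lam s • (f s *ᵥ y) = c • (f s *ᵥ y) := by
      rw [← Matrix.smul_mulVec, ← P.eig, ← P.comm, ← Matrix.mulVec_mulVec, hFy,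
        Matrix.mulVec_smul]
    by_contra hne
    have h2 : (lam s - c) • (f s *ᵥ y) = 0 := by rw [sub_smul, h1, sub_self]
    exact hs ((smul_eq_zero.1 h2).resolve_left (sub_ne_zero.2 hne))
  obtain ⟨t, ht, κ, hκ, hκ0⟩ := exists_word P.fam (hU hyU) hs
  obtain ⟨ω, hω, hω', hω''⟩ := exists_om' S ho he P.fam P.dich hF hst
  have e1 := hω' κ t ht hκ0
  obtain ⟨c0, hc0, hcard⟩ := exists_cut hω e1
  have hD : StabG D At Γ (Dn p wt c0) :=
    ⟨fun z hz v hv => stable_of_units S he
      (fun M hM hM' v hv => Dn_stable hpq (hst M (pres_of_mem S ho he hM hM')) hv) _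
        (by rw [op_opM]; exact sub_CA hz) v hv,
      fun x hx v hv => Dn_stable hpq
        (hstN x (NdG.presN_of_fix (grp x hx) (fix2 x hx) (fixn x hx))) hv⟩
  have hR := hred κ ⟨Fin.castAdd n 0, by rw [hκ]; exact hcs⟩ (P.prod ht.1 hκ0)
    (fun M hM e he => P.prod_sym (fixn M hM) he ht.1 hκ0)
    ⟨Dn p wt c0, hD, fun v hv w hw => Dn_iso S he hF hc0 hv hw, by
      rw [Nat.card_eq_fintype_card, Nat.card_eq_fintype_card, Fintype.card_subtype,
        Fintype.card_subtype]
      have h1 : ∀ s, Eig F (Dn p wt c0) (lam s) ↔ c0 < ω s := fun s =>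
        (P.eig_iff _ s).trans (hω'' s c0).symm
      have h2 : (Finset.univ.filter fun a => Eig F (Dn p wt c0) (lam (κ a))⁻¹) =
          Finset.univ.filter fun a => c0 < ω (bar (κ a)) := by
        refine Finset.filter_congr fun a _ => ?_
        rw [← P.bar_lam]
        exact h1 _
      have h3 : (Finset.univ.filter fun a => Eig F (Dn p wt c0) (lam (κ a))) =
          Finset.univ.filter fun a => c0 < ω (κ a) :=
        Finset.filter_congr fun a _ => h1 _
      rw [h2, h3]
      exact hcard⟩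
  -- the conjugate
  obtain ⟨t', ht'⟩ := cj_exists ht.1
  have hk' : t' ∈ Kr D At (1 + n) := cj_kr S ht' ht
  have hc : (slT (fun a => f (κ a)) t, slT (fun a => f (bar (κ a))) t') ∈ Cj Ct (1 + n) :=
    cj_slT P.csys ho he (fun i => P.cm (κ i)) (cj_mono P.sub ht')
  have h1 : slT (fun a => f (bar (κ a))) t' = 0 := by
    by_contra hne
    have e2 := hω' (fun a => bar (κ a)) t' hk' hne
    have e3 : ∑ a, (ω (κ a) + ω (bar (κ a))) ≤ 0 :=
      Finset.sum_nonpos fun a _ => (hω (κ a)).trans (by norm_num)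
    rw [Finset.sum_add_distrib] at e3
    linarith
  rw [h1] at hc
  refine hκ0 (P.red κ hR _ (cj_swap hc) ?_)
  rw [slT_slT]
  simp only [P.fam.idem]

end Pool.Agent.Lib.MP_361a6f_ag.FL.E.Inj
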